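import Mathlib

set_option autoImplicit false

namespace Pool.Agent.Results.MP_82bed6_co.Full

/-- Hadamard difference set of order `2^(2b-2)` in an abelian group written additively. -/
def IsHDS {G : Type} [AddCommGroup G] [DecidableEq G] (b : ℕ) (M : Finset G) : Prop :=
  M.card = 2 ^ (2 * b - 1) - 2 ^ (b - 1) ∧ ∀ g : G, g ≠ 0 →
    ((M ×ˢ M).filter fun x => x.1 - x.2 = g).card = 2 ^ (2 * b - 2) - 2 ^ (b - 1)

/-- A set of points meeting every line in `0` or `d` points. -/
def MaxArc {P : Type} (L : Type) [Membership P L] (d : ℕ) (K : Set P) : Prop :=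
  ∀ l : L, {p ∈ K | p ∈ l}.encard = 0 ∨ {p ∈ K | p ∈ l}.encard = d

def ok (l : List Bool) : Bool := l.count true == 0 || l.count true == 2

lemma fin : ∀ x00 x01 x10 x20 x51 x60 : Bool, ok [x00, x01, x10, x20, x51, x60] →
    ∀ x11 x21 x50 x61 : Bool, ok [x01, x00, x11, x21, x50, x61] →
    ∀ x30 x70 : Bool, ok [x10, x11, x20, x30, x61, x70] →
    ok [x50, x51, x60, x70, x21, x30] →
    ∀ x31 x71 : Bool, ok [x11, x10, x21, x31, x60, x71] →
    ok [x51, x50, x61, x71, x20, x31] →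
    ∀ x40 : Bool, ok [x20, x21, x30, x40, x71, x00] →
    ok [x30, x31, x40, x50, x01, x10] →
    ok [x60, x61, x70, x00, x31, x40] →
    ok [x71, x70, x01, x11, x40, x51] →
    ∀ x41 : Bool, ok [x21, x20, x31, x41, x70, x01] →
    ok [x31, x30, x41, x51, x00, x11] →
    ok [x40, x41, x50, x60, x11, x20] →
    ok [x41, x40, x51, x61, x10, x21] →
    ok [x61, x60, x71, x01, x30, x41] →
    ok [x70, x71, x00, x10, x41, x50] →
    x00 → (x10 → x40 ∧ !x50) ∧ (x50 → x40) := by
  decide +kernel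

def Ml : List (ZMod 8 × ZMod 2) := [(0, 0), (0, 1), (1, 0), (2, 0), (5, 1), (6, 0)]

lemma fin' (T : ZMod 8 × ZMod 2 → Bool) (k : ∀ g, ok (Ml.map fun m => T (m + g))) :
    T (0, 0) → (T (1, 0) → T (4, 0) ∧ !T (5, 0)) ∧ (T (5, 0) → T (4, 0)) :=
  fin (T (0, 0)) (T (0, 1)) (T (1, 0)) (T (2, 0)) (T (5, 1)) (T (6, 0)) (k (0, 0))
    (T (1, 1)) (T (2, 1)) (T (5, 0)) (T (6, 1)) (k (0, 1))
    (T (3, 0)) (T (7, 0)) (k (1, 0))
    (k (5, 0))
    (T (3, 1)) (T (7, 1)) (k (1, 1))
    (k (5, 1))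
    (T (4, 0)) (k (2, 0))
    (k (3, 0))
    (k (6, 0))
    (k (7, 1))
    (T (4, 1)) (k (2, 1))
    (k (3, 1))
    (k (4, 0))
    (k (4, 1))
    (k (6, 1))
    (k (7, 0))
    
theorem result : ∃ (b : ℕ) (G : Type) (_ : AddCommGroup G) (_ : Fintype G) (_ : DecidableEq G)
    (M : Finset G), 1 ≤ b ∧ Fintype.card G = 2 ^ (2 * b) ∧ IsHDS b M ∧
    ∀ (P L : Type) [Membership P L] [Configuration.ProjectivePlane P L] (φ : G → P),
      φ.Injective → ¬ ∀ g : G, MaxArc L (2 ^ (b - 1)) (φ '' {x | ∃ m ∈ M, x = m + g}) := by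
  refine ⟨2, ZMod 8 × ZMod 2, inferInstance, inferInstance, inferInstance, Ml.toFinset, by omega,
    by decide, ⟨by decide +kernel, by decide +kernel⟩, fun P L _ _ φ hφ h => ?_⟩
  classical
  have key : ∀ l : L, _ := fun l => fin' (fun x => φ x ∈ l) fun g => by
    have e : {p ∈ φ '' {x | ∃ m ∈ Ml.toFinset, x = m + g} | p ∈ l} =
        (fun m => φ (m + g)) '' (Ml.filter fun m => φ (m + g) ∈ l).toFinset := by
      ext p; simp; aesop
    have := h g l
    rw [e, Function.Injective.encard_image (f := fun m => φ (m + g))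
      (hφ.comp (add_left_injective g)), Set.encard_coe_eq_coe_finsetCard,
      List.toFinset_card_of_nodup (List.Nodup.filter _ (by decide)),
      ← List.countP_eq_length_filter] at this
    have c : (Ml.map fun m => decide (φ (m + g) ∈ l)).count true =
        Ml.countP fun m => φ (m + g) ∈ l := by simp [List.count, List.countP_map, Function.comp_def]
    simp only [ok, c, Bool.or_eq_true, beq_iff_eq]
    exact_mod_cast this
  simp only [decide_eq_true_eq, Bool.not_eq_true', decide_eq_false_iff_not] at key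
  have a := Configuration.HasLines.mkLine_ax (L := L) (hφ.ne (by decide : ((0, 0) : ZMod 8 × ZMod 2) ≠ (1, 0)))
  have b := Configuration.HasLines.mkLine_ax (L := L) (hφ.ne (by decide : ((0, 0) : ZMod 8 × ZMod 2) ≠ (5, 0)))
  have c := (key _ a.1).1 a.2
  rcases Configuration.Nondegenerate.eq_or_eq a.1 c.1 b.1 ((key _ b.1).2 b.2) with e | e
  · exact absurd (hφ e) (by decide)
  · exact c.2 (e ▸ b.2)

end Pool.Agent.Results.MP_82bed6_co.Full
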